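import Mathlib

set_option autoImplicit false

/-!
`k`-dominating independent sets.
-/

namespace Pool.Agent.MP_b8b299_co.H56

/-- `D` is independent and every vertex outside `D` has at least `k` neighbours in `D`. -/
def IsDIS {V : Type} (k : ℕ) (G : SimpleGraph V) (D : Set V) : Prop :=
  (∀ u ∈ D, ∀ v ∈ D, ¬G.Adj u v) ∧ ∀ v ∉ D, k ≤ {u ∈ D | G.Adj v u}.ncard

/-- The largest number of `k`-dominating independent sets of a graph on `n` vertices. -/
noncomputable def mi (k n : ℕ) : ℕ := ⨆ G : SimpleGraph (Fin n), {D | IsDIS k G D}.ncard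

end Pool.Agent.MP_b8b299_co.H56
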