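import Mathlib

set_option autoImplicit false

/-!
An upper bound for the number of `k`-dominating independent sets.
-/

namespace Pool.Agent.MP_b8b299_co.H56

open Finset

theorem exp_ge (y : ℝ) (hy : 0 ≤ y) : 1 + y + y ^ 2 / 2 + y ^ 3 / 6 + y ^ 4 / 24 ≤ Real.exp y := by
  have := Real.sum_le_exp_of_nonneg hy 5
  simp [sum_range_succ, Nat.factorial] at this
  linarith

/-- The numerical inequality behind the induction. -/
theorem numeric {k d c : ℕ} (hk : 3 ≤ k) (hd : k ≤ d) (hc : 1 ≤ c) {a M : ℝ}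
    (ha : a * (10 * k + 5) = 6) (M0 : 0 ≤ M) (h1 : M * Real.exp (a * (c - 1)) ≤ 1)
    (h2 : c < k → (k - c) * (M * Real.exp (a * (k + c))) ≤ d - c) :
    k + d * M ≤ k * Real.exp (a * (d + 1)) := by
  have k3 : (3 : ℝ) ≤ k := by exact_mod_cast hk
  have dk : (k : ℝ) ≤ d := by exact_mod_cast hd
  have c1 : (1 : ℝ) ≤ c := by exact_mod_cast hc
  have a0 : 0 < a := by nlinarith
  obtain ⟨z, hz⟩ : ∃ z : ℝ, d = k * (1 + z) := ⟨d / k - 1, by field_simp; ring⟩
  have z0 : 0 ≤ z := by nlinarith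
  have l0 : 1.82 ≤ Real.exp 0.6 := le_trans (by norm_num) (exp_ge 0.6 (by norm_num))
  have s0 : 0 ≤ a * (c - 1) := by positivity
  have e1 := Real.add_one_le_exp (a * (c - 1))
  have M1 : M * (a * (c - 1) + 1) ≤ 1 := le_trans (by gcongr) h1
  have M2 : M ≤ 1 := by nlinarith
  suffices h : 1 + (1 + z) * M ≤ Real.exp (a * (d + 1)) by rw [hz] at h ⊢; nlinarith
  rcases le_total 1 z with z1 | z1
  · have g1 : 1.2 + 0.5 * (z - 1) ≤ a * (d + 1) := by
      rw [hz]; nlinarith [mul_nonneg (sub_nonneg.2 z1) (show 0 ≤ a * k - 0.5 by nlinarith)]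
    have g2 := exp_ge (1.2 + 0.5 * (z - 1)) (by linarith)
    have g3 := Real.exp_le_exp.2 g1
    obtain ⟨w, rfl⟩ : ∃ w, z = 1 + w := ⟨z - 1, by ring⟩
    have w0 : 0 ≤ w := by linarith
    nlinarith [pow_nonneg w0 2, pow_nonneg w0 3, pow_nonneg w0 4]
  have g1 : 0.6 + 0.6 * z ≤ a * (d + 1) := by rw [hz]; nlinarith
  have g2 := Real.exp_le_exp.2 g1
  rw [Real.exp_add] at g2
  have g3 := exp_ge (0.6 * z) (by positivity)
  have g4 : 1.82 * (1 + 0.6 * z + 0.18 * z ^ 2 + 0.036 * z ^ 3) ≤ Real.exp (a * (d + 1)) := by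
    refine le_trans (mul_le_mul l0 ?_ (by positivity) (by positivity)) g2
    nlinarith [pow_nonneg z0 4]
  rcases le_total 0.62 z with z2 | z2
  · nlinarith [pow_nonneg z0 3, mul_nonneg z0 (sub_nonneg.2 z2)]
  suffices h : M ≤ 0.82 + 0.27 * z by nlinarith [pow_nonneg z0 3]
  by_contra hM
  push Not at hM
  have g5 : a * (c - 1) < 0.22 - 0.32 * z := by
    by_contra g
    push Not at g
    nlinarith [mul_nonneg z0 (sub_nonneg.2 z2)]
  have g6 : (c - 1) * 6 < (0.22 - 0.32 * z) * (10 * k + 5) := by rw [← ha]; nlinarith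
  have ck : (c : ℝ) < k := by nlinarith
  have g7 := h2 (by exact_mod_cast ck)
  have g8 : 1.82 ≤ Real.exp (a * (k + c)) := l0.trans (Real.exp_le_exp.2 (by nlinarith))
  have g9 : (k - c) * ((0.82 + 0.27 * z) * 1.82) ≤ d - c :=
    le_trans (by gcongr) g7
  rcases le_or_gt 6 k with k6 | k6
  · have k6' : (6 : ℝ) ≤ k := by exact_mod_cast k6
    rw [hz] at g9
    nlinarith [mul_nonneg z0 (sub_nonneg.2 z2), mul_nonneg (sub_nonneg.2 k6') z0,
      mul_nonneg (sub_nonneg.2 k6') (sub_nonneg.2 z2),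
      mul_nonneg (sub_nonneg.2 k6') (mul_nonneg z0 (sub_nonneg.2 z2)),
      mul_pos (sub_pos.2 g6) (show 0 < 0.4924 + 0.4914 * z by positivity)]
  · have d9 : d < 9 := by
      have k5 : (k : ℝ) ≤ 5 := by exact_mod_cast Nat.lt_succ_iff.1 k6
      have : (d : ℝ) < 9 := by nlinarith
      exact_mod_cast this
    have ck' : c < k := by exact_mod_cast ck
    clear h1 h2 g7 g8 g1 g2 g3 g4 e1 M1
    interval_cases k <;> interval_cases d <;> interval_cases c <;> push_cast at * <;> linarith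

variable {V : Type} [DecidableEq V] (k : ℕ) (G : SimpleGraph V) [DecidableRel G.Adj]

/-- Neighbours inside `W`. -/
def nb (W : Finset V) (v : V) : Finset V := {u ∈ W | G.Adj v u}

/-- The `k`-dominating independent sets of the graph induced on `W`. -/
def dis (W : Finset V) : Finset (Finset V) :=
  {D ∈ W.powerset | (∀ u ∈ D, ∀ v ∈ D, ¬G.Adj u v) ∧ ∀ v ∈ W, v ∉ D → k ≤ #(nb G D v)}

variable {k G}

theorem mem_dis {W D : Finset V} : D ∈ dis k G W ↔ D ⊆ W ∧ (∀ u ∈ D, ∀ v ∈ D, ¬G.Adj u v) ∧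
    ∀ v ∈ W, v ∉ D → k ≤ #(nb G D v) := by simp [dis]

omit [DecidableEq V] in
theorem mem_nb {W : Finset V} {u v : V} : u ∈ nb G W v ↔ u ∈ W ∧ G.Adj v u := by simp [nb]

theorem remove (W A : Finset V) :
    #{D ∈ dis k G W | A ⊆ D} ≤ #(dis k G (W \ (A ∪ A.biUnion (nb G W)))) := by
  refine card_le_card_of_injOn (· \ A) (fun D hD => ?_) fun D hD E hE h => ?_
  · obtain ⟨h1, hA⟩ := mem_filter.1 hD
    obtain ⟨h1, h2, h3⟩ := mem_dis.1 h1
    refine mem_coe.2 (mem_dis.2 ⟨fun x hx => ?_,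
      fun u hu v hv => h2 u (mem_sdiff.1 hu).1 v (mem_sdiff.1 hv).1, fun v hv hv' => ?_⟩)
    · obtain ⟨x1, x2⟩ := mem_sdiff.1 hx
      simp only [mem_sdiff, mem_union, mem_biUnion, mem_nb, not_or, not_exists, not_and]
      exact ⟨h1 x1, x2, fun a ha _ => h2 a (hA ha) x x1⟩
    · simp only [mem_sdiff, mem_union, mem_biUnion, mem_nb, not_or, not_exists, not_and] at hv hv'
      refine (h3 v hv.1 fun g => hv' g hv.2.1).trans (card_le_card fun u hu => ?_)
      obtain ⟨u1, u2⟩ := mem_nb.1 hu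
      exact mem_nb.2 ⟨mem_sdiff.2 ⟨u1, fun g => hv.2.2 u g hv.1 u2.symm⟩, u2⟩
  · have h1 := (mem_filter.1 hD).2
    have h2 := (mem_filter.1 hE).2
    rw [← sdiff_union_of_subset h1, ← sdiff_union_of_subset h2]
    exact congrArg (· ∪ A) h

theorem double (S : Finset (Finset V)) (N : Finset V) (r : ℕ) (h : ∀ D ∈ S, r ≤ #(N ∩ D)) :
    r * #S ≤ ∑ u ∈ N, #{D ∈ S | u ∈ D} := by
  simp only [card_filter]
  rw [sum_comm, mul_comm, ← smul_eq_mul]
  refine card_nsmul_le_sum _ _ _ fun D hD => (h D hD).trans_eq ?_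
  rw [← card_filter, filter_mem_eq_inter]

theorem bound (hk : 3 ≤ k) {a : ℝ} (ha : a * (10 * k + 5) = 6) (W : Finset V) :
    (#(dis k G W) : ℝ) ≤ Real.exp (a * #W) := by
  have a0 : 0 < a := by
    have : (0 : ℝ) ≤ k := by positivity
    nlinarith
  induction W using Finset.strongInduction with
  | H W ih =>
  rcases W.eq_empty_or_nonempty with rfl | hW
  · have : #(dis k G ∅) ≤ 1 := (card_filter_le _ _).trans (by simp)
    simpa using this
  obtain ⟨v, hv, hmin⟩ := W.exists_min_image (fun u => #(nb G W u)) hW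
  have key : ∀ (S : Finset (Finset V)) (A B : Finset V) (j : ℕ), A.Nonempty →
      (∀ D ∈ S, D ∈ dis k G W ∧ A ⊆ D) → B ⊆ A.biUnion (nb G W) → j ≤ #A + #B →
      #S * Real.exp (a * j) ≤ Real.exp (a * #W) := by
    intro S A B j hA hS hB hj
    rcases S.eq_empty_or_nonempty with rfl | ⟨D, hD⟩
    · simp [Real.exp_nonneg]
    obtain ⟨h1, h2, -⟩ := mem_dis.1 (hS D hD).1
    have h3 := (hS D hD).2
    have h4 : A ∪ A.biUnion (nb G W) ⊆ W :=
      union_subset (h3.trans h1) (biUnion_subset.2 fun _ _ => filter_subset _ _)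
    have h5 : j ≤ #(A ∪ A.biUnion (nb G W)) := by
      rw [card_union_of_disjoint (disjoint_left.2 fun x hx hx' => ?_)]
      · exact hj.trans (Nat.add_le_add_left (card_le_card hB) _)
      · obtain ⟨y, y1, y2⟩ := mem_biUnion.1 hx'
        exact h2 y (h3 y1) x (h3 hx) (mem_nb.1 y2).2
    have h6 := ih _ (sdiff_ssubset h4 (hA.mono subset_union_left))
    have h7 : (#S : ℝ) ≤ #(dis k G (W \ (A ∪ A.biUnion (nb G W)))) := by
      exact_mod_cast (card_le_card fun D hD => mem_filter.2 (hS D hD)).trans (remove W A)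
    have h8 := card_sdiff_add_card_eq_card h4
    refine (mul_le_mul_of_nonneg_right (h7.trans h6) (Real.exp_nonneg _)).trans ?_
    rw [← Real.exp_add, ← mul_add, Real.exp_le_exp]
    refine mul_le_mul_of_nonneg_left ?_ a0.le
    exact_mod_cast (by omega)
  set d := #(nb G W v) with hd
  rcases lt_or_ge d k with hdk | hdk
  · have := key (dis k G W) {v} ∅ 0 (singleton_nonempty v) (fun D hD => ⟨hD, ?_⟩)
      (empty_subset _) (Nat.zero_le _)
    · simpa using this
    · obtain ⟨h1, -, h3⟩ := mem_dis.1 hD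
      refine singleton_subset_iff.2 (by_contra fun g => ?_)
      have := (h3 v hv g).trans (card_le_card (filter_subset_filter _ h1))
      exact absurd this (not_le.2 hdk)
  set E := Real.exp (a * #W) with hE
  set F := Real.exp (a * (d + 1)) with hF
  have E0 : 0 < E := Real.exp_pos _
  have F0 : 0 < F := Real.exp_pos _
  have m1 : (#{D ∈ dis k G W | v ∈ D} : ℝ) * F ≤ E := by
    have := key {D ∈ dis k G W | v ∈ D} {v} (nb G W v) (d + 1) (singleton_nonempty v)
      (fun D hD => by simpa using hD) (by simp) (by rw [card_singleton]; omega)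
    rwa [Nat.cast_succ] at this
  set S := {D ∈ dis k G W | v ∉ D} with hS
  have m2 : ∀ u ∈ nb G W v, k * E + d * (#{D ∈ S | u ∈ D} * F) ≤ k * F * E := by
    intro u hu
    set C := {x ∈ nb G W v | #(nb G W x \ nb G W u) < k} with hC
    have uC : u ∈ C := mem_filter.2 ⟨hu, by simp; omega⟩
    have CN : C ⊆ nb G W v := filter_subset _ _
    have du : d ≤ #(nb G W u) := hmin u (mem_nb.1 hu).1
    have forced : ∀ D ∈ {D ∈ S | u ∈ D}, D ∈ dis k G W ∧ C ⊆ D := fun D hD => by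
      obtain ⟨h0, uD⟩ := mem_filter.1 hD
      have h0' := (mem_filter.1 h0).1
      obtain ⟨h1, h2, h3⟩ := mem_dis.1 h0'
      refine ⟨h0', fun x hx => by_contra fun g => ?_⟩
      obtain ⟨x1, x2⟩ := mem_filter.1 hx
      refine absurd ((h3 x (mem_nb.1 x1).1 g).trans (card_le_card fun y hy => ?_)) (not_le.2 x2)
      obtain ⟨y1, y2⟩ := mem_nb.1 hy
      exact mem_sdiff.2 ⟨mem_nb.2 ⟨h1 y1, y2⟩, fun g => h2 u uD y y1 (mem_nb.1 g).2⟩
    have k1 := key _ C (nb G W u) (#C + d) ⟨u, uC⟩ forced (subset_biUnion_of_mem _ uC) (by omega)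
    have k2 : ∀ x ∈ nb G W v \ C, (#{D ∈ {D ∈ S | u ∈ D} | x ∈ D} : ℝ) *
        Real.exp (a * (#C + 1 + (d + k) : ℕ)) ≤ E := fun x hx => by
      obtain ⟨x1, x2⟩ := mem_sdiff.1 hx
      have x3 : k ≤ #(nb G W x \ nb G W u) := not_lt.1 fun g => x2 (mem_filter.2 ⟨x1, g⟩)
      refine key _ (insert x C) (nb G W x \ nb G W u ∪ nb G W u) _ (insert_nonempty _ _)
        (fun D hD => ?_) (union_subset (sdiff_subset.trans
          (subset_biUnion_of_mem _ (mem_insert_self _ _)))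
          (subset_biUnion_of_mem _ (mem_insert_of_mem uC))) ?_
      · obtain ⟨h0, xD⟩ := mem_filter.1 hD
        exact ⟨(forced D h0).1, insert_subset xD (forced D h0).2⟩
      · rw [card_insert_of_notMem x2, card_union_of_disjoint sdiff_disjoint]
        omega
    have k3 := double {D ∈ S | u ∈ D} (nb G W v \ C) (k - #C) fun D hD => by
      obtain ⟨h0, vD⟩ := mem_filter.1 (mem_filter.1 hD).1
      obtain ⟨h1, -, h3⟩ := mem_dis.1 h0
      have h4 : nb G D v ⊆ (nb G W v \ C) ∩ D ∪ C := fun y hy => by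
        obtain ⟨y1, y2⟩ := mem_nb.1 hy
        by_cases g : y ∈ C <;> simp [g, y1, y2, h1 y1, mem_nb]
      have := ((h3 v hv vD).trans (card_le_card h4)).trans (card_union_le _ _)
      omega
    have k4 := sum_le_card_nsmul _ _ _ k2
    rw [← sum_mul, nsmul_eq_mul, card_sdiff_of_subset CN, Nat.cast_sub (card_le_card CN),
      ← Nat.cast_sum] at k4
    have := numeric (c := #C) (M := #{D ∈ S | u ∈ D} * F / E) hk hdk (card_pos.2 ⟨u, uC⟩) ha
      (div_nonneg (mul_nonneg (Nat.cast_nonneg _) F0.le) E0.le) ?_ fun g => ?_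
    · rw [← hF, ← mul_div_assoc, add_div' _ _ _ E0.ne', div_le_iff₀ E0] at this
      linarith
    · rw [div_mul_eq_mul_div, div_le_one E0, mul_assoc, ← Real.exp_add]
      refine le_trans (le_of_eq ?_) k1
      push_cast
      ring_nf
    · rw [div_mul_eq_mul_div, ← mul_div_assoc, div_le_iff₀ E0, mul_assoc, ← Real.exp_add,
        ← mul_assoc]
      refine le_trans (mul_le_mul ?_ (le_of_eq ?_) (Real.exp_nonneg _) (Nat.cast_nonneg _)) k4
      · rw [← Nat.cast_sub g.le]
        exact_mod_cast k3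
      · push_cast
        ring_nf
  have m3 := double S (nb G W v) k fun D hD => by
    obtain ⟨h0, vD⟩ := mem_filter.1 hD
    obtain ⟨h1, -, h3⟩ := mem_dis.1 h0
    refine (h3 v hv vD).trans (card_le_card fun y hy => ?_)
    obtain ⟨y1, y2⟩ := mem_nb.1 hy
    exact mem_inter.2 ⟨mem_nb.2 ⟨h1 y1, y2⟩, y1⟩
  have m4 := sum_le_card_nsmul _ _ _ m2
  rw [sum_add_distrib, sum_const, ← mul_sum, ← sum_mul, nsmul_eq_mul, nsmul_eq_mul, ← hd,
    ← Nat.cast_sum, ← mul_add] at m4
  have k0 : (0 : ℝ) < k := by exact_mod_cast (by omega : 0 < k)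
  have m5 := le_of_mul_le_mul_left m4 (by exact_mod_cast (by omega : 0 < d))
  have m6 : (k * #S : ℝ) ≤ (∑ u ∈ nb G W v, #{D ∈ S | u ∈ D} : ℕ) := by exact_mod_cast m3
  have m7 : (#(dis k G W) : ℝ) = #{D ∈ dis k G W | v ∈ D} + #S := by
    exact_mod_cast (card_filter_add_card_filter_not _).symm
  refine le_of_mul_le_mul_right (le_of_mul_le_mul_left ?_ k0) F0
  rw [m7]
  nlinarith [mul_le_mul_of_nonneg_right m6 F0.le]

end Pool.Agent.MP_b8b299_co.H56
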