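import Mathlib
import Pool.Agent.MP_b8b299_co.H56.Defs
import Pool.Agent.MP_b8b299_co.H56.Upper

set_option autoImplicit false

/-!
Blown up tensor squares of complete graphs, and the passage to the limit.
-/

namespace Pool.Agent.MP_b8b299_co.H56

open Filter Topology Finset

/-- Disjoint copies of the tensor square of `K_q`, blown up with the weights `w`. -/
def gr (s q : ℕ) (w : Fin q × Fin q → ℕ) : SimpleGraph (Fin s × Σ x, Fin (w x)) where
  Adj u v := u.1 = v.1 ∧ u.2.1.1 ≠ v.2.1.1 ∧ u.2.1.2 ≠ v.2.1.2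
  symm := ⟨fun _ _ h => ⟨h.1.symm, h.2.1.symm, h.2.2.symm⟩⟩
  loopless := ⟨fun _ h => h.2.1 rfl⟩

/-- A row or a column. -/
def line {q : ℕ} (c : Bool × Fin q) (x : Fin q × Fin q) : Prop :=
  (if c.1 then x.1 else x.2) = c.2

instance {q : ℕ} (c : Bool × Fin q) (x : Fin q × Fin q) : Decidable (line c x) := by
  unfold line; infer_instance

/-- The points of a line adjacent to `x`. -/
def near {q : ℕ} (c : Bool × Fin q) (x : Fin q × Fin q) : Finset (Fin q × Fin q) :=
  {y | line c y ∧ x.1 ≠ y.1 ∧ x.2 ≠ y.2}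

theorem IsDIS.comap {V W : Type} {k : ℕ} {G : SimpleGraph V} {D : Set V} (e : W ≃ V)
    (h : IsDIS k G D) : IsDIS k (G.comap e) (e ⁻¹' D) := by
  refine ⟨fun u hu v hv => h.1 _ hu _ hv, fun v hv => (h.2 _ hv).trans_eq ?_⟩
  exact (Set.ncard_preimage_of_injective_subset_range (s := {u ∈ D | G.Adj (e v) u})
    e.injective (by simp)).symm

variable {k q : ℕ} {w : Fin q × Fin q → ℕ}

theorem isDIS (dom : ∀ c x, ¬line c x → k ≤ ∑ y ∈ near c x, w y) (s : ℕ)
    (f : Fin s → Bool × Fin q) : IsDIS k (gr s q w) {v | line (f v.1) v.2.1} := by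
  refine ⟨fun u hu v hv h => ?_, fun v hv => (dom _ _ hv).trans_eq ?_⟩
  · have h1 : line (f u.1) u.2.1 := hu
    have h2 : line (f u.1) v.2.1 := h.1 ▸ hv
    unfold line at h1 h2
    split_ifs at h1 h2
    exacts [h.2.1 (h1.trans h2.symm), h.2.2 (h1.trans h2.symm)]
  have e : {u ∈ {v : Fin s × Σ x, Fin (w x) | line (f v.1) v.2.1} | (gr s q w).Adj v u} =
      ↑(({v.1} : Finset (Fin s)) ×ˢ (near (f v.1) v.2.1).sigma
        fun y => (univ : Finset (Fin (w y)))) := by
    ext u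
    simp only [gr, near, Set.mem_setOf_eq, coe_product, Set.mem_prod, coe_singleton,
      Set.mem_singleton_iff, mem_coe, mem_sigma, mem_filter, mem_univ, true_and, and_true]
    constructor
    · rintro ⟨h1, h2, h3⟩
      exact ⟨h2.symm, h2 ▸ h1, h3⟩
    · rintro ⟨h1, h2, h3⟩
      exact ⟨h1 ▸ h2, h1.symm, h3⟩
  rw [e, Set.ncard_coe_finset, card_product, card_sigma]
  simp

theorem le_mi (dom : ∀ c x, ¬line c x → k ≤ ∑ y ∈ near c x, w y) (w0 : ∀ x, 0 < w x)
    (inj : ∀ c c' : Bool × Fin q, (∀ x, line c x ↔ line c' x) → c = c') (s : ℕ) :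
    (2 * q) ^ s ≤ mi k (s * ∑ x, w x) := by
  let e : Fin (s * ∑ x, w x) ≃ Fin s × Σ x, Fin (w x) := Fintype.equivOfCardEq (by simp)
  refine le_trans ?_ (le_ciSup (Set.finite_range _).bddAbove ((gr s q w).comap e))
  have h := Set.ncard_le_ncard_of_injOn (s := (Set.univ : Set (Fin s → Bool × Fin q)))
    (t := {D | IsDIS k ((gr s q w).comap e) D})
    (fun f => e ⁻¹' {v | line (f v.1) v.2.1}) (fun f _ => (isDIS dom s f).comap e)
    fun f _ g _ h => funext fun i => inj _ _ fun x => by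
      simpa using Set.ext_iff.1 h (e.symm (i, ⟨x, ⟨0, w0 x⟩⟩))
  simpa [Set.ncard_univ] using h

theorem le_lim {m N : ℕ} (hN : 0 < N) (hm : ∀ s, m ^ s ≤ mi k (s * N)) {L : ℝ}
    (h : Tendsto (fun n : ℕ => (mi k n : ℝ) ^ (1 / (n : ℝ))) atTop (𝓝 L)) :
    (m : ℝ) ^ (1 / (N : ℝ)) ≤ L := by
  have h1 : Tendsto (fun s : ℕ => s * N) atTop atTop := tendsto_id.atTop_mul_const' hN
  refine ge_of_tendsto (h.comp h1) (eventually_atTop.2 ⟨1, fun s hs => ?_⟩)
  have s0 : (0 : ℝ) < s := by exact_mod_cast hs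
  have t0 : (0 : ℝ) < N := by exact_mod_cast hN
  have h2 : (m : ℝ) ^ s ≤ mi k (s * N) := by exact_mod_cast hm s
  refine le_trans (le_of_eq ?_) (Real.rpow_le_rpow (by positivity) h2 (by positivity))
  rw [← Real.rpow_natCast, ← Real.rpow_mul (by positivity)]
  congr 1
  push_cast
  field_simp

theorem four (t : ℕ) (ht : 0 < t) (s : ℕ) : 8 ^ s ≤ mi (3 * t) (s * (16 * t)) := by
  have d : ∀ (c : Bool × Fin 4) x, ¬line c x → #(near c x) = 3 := by decide
  simpa using le_mi (k := 3 * t) (q := 4) (w := fun _ => t) (fun c x h => by simp [d c x h])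
    (fun _ => ht) (by decide) s

theorem three (j : ℕ) (hj : 0 < j) (s : ℕ) : 6 ^ s ≤ mi (2 * j + 1) (s * (9 * j + 6)) := by
  have d : ∀ (c : Bool × Fin 3) x, ¬line c x → #(near c x) = 2 ∧
      1 ≤ ∑ y ∈ near c x, if y.1 = y.2 then 0 else 1 := by decide
  have e : (∑ y : Fin 3 × Fin 3, if y.1 = y.2 then 0 else 1) = 6 := by decide
  have := le_mi (k := 2 * j + 1) (q := 3) (w := fun y => j + if y.1 = y.2 then 0 else 1)
    (fun c x h => by rw [sum_add_distrib, sum_const, (d c x h).1, smul_eq_mul]; linarith [d c x h])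
    (fun _ => by omega) (by decide) s
  rw [sum_add_distrib, e] at this
  simpa using this

theorem mi_le (hk : 3 ≤ k) (n : ℕ) : (mi k n : ℝ) ≤ Real.exp (6 / (10 * k + 5) * n) := by
  classical
  obtain ⟨G, hG⟩ := exists_eq_ciSup_of_finite
    (f := fun G : SimpleGraph (Fin n) => {D | IsDIS k G D}.ncard)
  have h := bound (G := G) hk (a := 6 / (10 * k + 5)) (by field_simp) univ
  rw [card_univ, Fintype.card_fin] at h
  refine le_trans ?_ h
  rw [mi, ← hG, ← Set.ncard_coe_finset]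
  refine Nat.cast_le.2 (Set.ncard_le_ncard_of_injOn (fun D => D.toFinset) (fun D hD => ?_)
    fun D _ E _ h => Set.toFinset_inj.1 h)
  refine mem_coe.2 (mem_dis.2 ⟨subset_univ _, by simpa using hD.1, fun v _ hv => ?_⟩)
  refine (hD.2 v (by simpa using hv)).trans_eq ?_
  rw [← Set.ncard_coe_finset]
  congr 1
  ext u
  simp [nb]

end Pool.Agent.MP_b8b299_co.H56
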